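import Pool.Agent.H55.FreeIdx.Defs
import Pool.Agent.H55.FreeIdx.Adaptive
import Pool.Agent.H66.TSH.TwoProbes
import Pool.Agent.H66.TSH.UpperDict

/-!
# 3SUM-Indexing with a constant number of adaptive probes and a free index

The query algorithm may read for free an index, an arbitrary function of the input with `H`
values; only the probes to the memory of `S` cells with `W` possible contents are counted. The
two arrays hold `n` integers in `{0, …, U - 1}`, and `W ≤ U * n ^ C`.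

* `T ≥ 2` probes: an index of `η n log₂ n` bits, `η = η(T, ε, C) > 0`, leaves
  `S > n ^ (1 + 1 / (T - 1) - ε)`.
* Two probes: an index of `η n log₂ n` bits leaves `S > n ^ (2 - ε)` for every `η < 1`, whereas
  for every `δ > 0` an index of `(2 + δ) n log₂ n` bits allows truly subquadratic space.
-/

namespace Pool.Agent.Results.MP_e016b3_lc.ConstantProbes

open Pool.Agent.H55.FreeIdx

theorem result :
    -- every constant number of probes, index of few times `n log₂ n` bits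
    (∀ T : ℕ, 2 ≤ T → ∀ ε : ℝ, 0 < ε → ∀ C : ℕ, ∃ (c₀ : ℕ) (η : ℝ), 0 < η ∧
      ∀ c₁ : ℕ, ∃ n₀ : ℕ, ∀ n U W S H : ℕ, n₀ ≤ n → n ^ c₀ ≤ U → (3 ≤ T → U ≤ n ^ c₁) →
      W ≤ U * n ^ C → (H : ℝ) ≤ (n : ℝ) ^ (η * n) → Solvable n U S W H T →
      (n : ℝ) ^ (1 + 1 / ((T : ℝ) - 1) - ε) < S) ∧
    -- two probes, index of less than `n log₂ n` bits
    (∀ ε : ℝ, 0 < ε → ∀ η : ℝ, η < 1 → ∀ C : ℕ, ∃ c₀ n₀ : ℕ, ∀ n U S W H : ℕ,
      n₀ ≤ n → n ^ c₀ ≤ U → W ≤ U * n ^ C → (H : ℝ) ≤ (n : ℝ) ^ (η * n) →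
      Solvable n U S W H 2 → (n : ℝ) ^ (2 - ε) < (S : ℝ)) ∧
    -- two probes, index of more than `2 n log₂ n` bits
    (∀ δ : ℝ, 0 < δ → ∃ γ : ℝ, 0 < γ ∧ ∃ C n₀ : ℕ, ∀ n U : ℕ, n₀ ≤ n → 1 ≤ U →
      (U : ℝ) ≤ (2 : ℝ) ^ ((n : ℝ) ^ γ) →
      ∃ S W H : ℕ, (S : ℝ) ≤ (n : ℝ) ^ (2 - γ) ∧ W ≤ U * n ^ C ∧
        (H : ℝ) ≤ (n : ℝ) ^ ((2 + δ) * (n : ℝ)) ∧ Solvable n U S W H 2) :=
  ⟨adaptive, Pool.H66.TSH.two_probes, Pool.H66.TSH.two_plus_delta⟩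

end Pool.Agent.Results.MP_e016b3_lc.ConstantProbes
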