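import Mathlib
import Pool.Agent.GGA.Err
import Pool.Agent.GGA.Res2

/-!
# 3SUM-Indexing in the generic group model: adaptive queries

The numbers are the residues modulo a prime `p`; the data structure sees them only through a
labelling `σ : ZMod p ≃ L`.  The arrays `a b : Fin n → ZMod p` are fixed and known, everything may
depend on them.  A structure (`DataStructure`) keeps a memory content `prep σ` in a finite set
`Adv` (read for free); to answer a query `z` it gets the label of `z` and the labels of `q` numbers
`c z + g`, the pairs `(c, g)` depending on the seed and the memory content only, and then makes at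
most `t` adaptive operations (`Time`): from two arbitrary labels `u`, `v` and constants
`c₀, c₁, c₂` to the label of `c₀ + c₁ x + c₂ y`, where `x`, `y` are the numbers labelled `u`, `v`.
`error a b σ` is the average over the seeds of the mean of the two error fractions (sums
`a i + b j` which are rejected, other numbers which are accepted).

For all but a fraction `1 / n` of the pairs of arrays, all `q + t + 1 ≤ c n` and every structure,
the number of the labellings with error at most `1 / 2 - δ` is at most
`card Adv * 2 ^ (-c n² / (t + 1))` times the number `p!` of all labellings.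
-/

namespace Pool.Agent.Results.MP_e016b3_lc.GenericAdaptive

open Pool.Agent.GGA

theorem result : ∀ δ : ℝ, 0 < δ → ∃ c : ℝ, 0 < c ∧ ∃ C n₀ : ℕ, ∀ n ≥ n₀,
    ∀ (p : ℕ) [Fact p.Prime], n ^ C ≤ p →
    ∃ Bad : Finset ((Fin n → ZMod p) × (Fin n → ZMod p)), n * Bad.card ≤ p ^ (2 * n) ∧
      ∀ a b : Fin n → ZMod p, (a, b) ∉ Bad →
        ∀ (L Adv Ω : Type) [Fintype L] [Fintype Adv] [Fintype Ω] [Nonempty Ω] (q t : ℕ),
        (q + t + 1 : ℝ) ≤ c * n →
        ∀ D : DataStructure (ZMod p) L Adv Ω q, D.Time t →
        (Nat.card {σ : ZMod p ≃ L // D.error a b σ ≤ 1 / 2 - δ} : ℝ) *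
          (2 : ℝ) ^ (c * (n : ℝ) ^ 2 / (t + 1)) ≤ Fintype.card Adv * (p.factorial : ℝ) :=
  fun δ hδ => lower2 δ hδ

end Pool.Agent.Results.MP_e016b3_lc.GenericAdaptive
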