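import Mathlib
import Pool.Agent.GGZ.Fin3
import Pool.Agent.GGY.Upper2

namespace Pool.Agent.Results.MP_e016b3_lc.GenericNonadaptive

open Pool.Agent.GGX Pool.Agent.GGY Pool.Agent.GGZ

/-- **3SUM-Indexing in the generic group model, non-adaptive queries: the exact trade-off.** -/
theorem result :
    (∀ ε : ℝ, 0 < ε → ε < 1 →
      ∃ C n₀ : ℕ, ∀ n ≥ n₀, ∀ p : ℕ, p.Prime → n ^ C ≤ p →
        ∃ Bad : Finset ((Fin n → ZMod p) × (Fin n → ZMod p)), n * Bad.card ≤ p ^ (2 * n) ∧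
          ∀ a b, (a, b) ∉ Bad → ∀ (L : Type) [Finite L] (H T E F : ℕ)
            (P : Scheme (ZMod p) L H T),
            (E : ℝ) ≤ ε / 8 * (n : ℝ) ^ 2 → (F : ℝ) ≤ (p : ℝ) ^ (ε / 8) →
            (Nat.card {σ : ZMod p → L // Function.Injective σ ∧ Works P a b E F σ} : ℝ) *
                (p : ℝ) ^ ((n : ℝ) * (n - T) - ε * (n : ℝ) ^ 2) ≤
              H * Nat.card {σ : ZMod p → L // Function.Injective σ}) ∧
    (∀ p : ℕ, p.Prime → ∀ n T : ℕ, 1 ≤ T → T ≤ n →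
      ∀ (a b : Fin n → ZMod p) (L : Type) [Fintype L],
        ∃ P : Scheme (ZMod p) L (Fintype.card L ^ (n * (n - T + 2))) T,
          (∀ α t, (P.query α t).1 = 1) ∧
          ∀ σ : ZMod p → L, Function.Injective σ → Works P a b 0 0 σ) := by
  refine ⟨fun ε hε hε1 => lower4 ε hε hε1, fun p hp n T hT hTn a b L _ => ?_⟩
  have : Fact p.Prime := ⟨hp⟩
  exact upper2 n T hT hTn a b

end Pool.Agent.Results.MP_e016b3_lc.GenericNonadaptive
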