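import Mathlib
import Pool.Agent.GGF.Fin
import Pool.Agent.GGF.Gen
import Pool.Agent.GGF.Inj
import Pool.Agent.GGF.Up

namespace Pool.Agent.Results.MP_e016b3_lc.GenericWords

open Pool.Agent.GGF

/-- **3SUM-Indexing in the generic group model: `Θ(n ^ 2 / T)` words for `T` operations.** -/
theorem result :
    (∀ ε η : ℝ, 0 < ε → 0 < η → ∃ c : ℝ, 0 < c ∧ ∃ C n₀ : ℕ, ∀ n ≥ n₀,
      ∀ p : ℕ, p.Prime → n ^ C ≤ p → p ≤ 2 ^ n →
      ∃ Bad : Finset ((Fin n → ZMod p) × (Fin n → ZMod p)), n * Bad.card ≤ p ^ (2 * n) ∧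
        ∀ a b, (a, b) ∉ Bad → ∀ (L : Type) [Finite L]
          (H T E F : ℕ) (P : GScheme (ZMod p) L H), 1 ≤ T → T ^ 101 ≤ n →
          (E : ℝ) ≤ (1 - η) * (n : ℝ) ^ 2 → (F : ℝ) ≤ p / (n : ℝ) ^ ε →
          (Nat.card {σ : ZMod p → L // Function.Injective σ ∧ Works P T a b E F σ} : ℝ) *
            (n : ℝ) ^ (c * (n : ℝ) ^ 2 / T) ≤
              H * Nat.card {σ : ZMod p → L // Function.Injective σ}) ∧
    (∀ p : ℕ, p.Prime → ∀ n T : ℕ, 2 ≤ T → 2 ^ T ≤ n →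
      ∀ (a b : Fin n → ZMod p) (L : Type) [Fintype L],
        ∃ (H : ℕ) (P : GScheme (ZMod p) L H),
          (H : ℝ) ≤ (n : ℝ) ^ (15 * (n : ℝ) ^ 2 / T) * (Real.logb 2 (Fintype.card L) + 1) ∧
          ∀ σ : ZMod p → L, Function.Injective σ → Works P T a b 0 0 σ) :=
  ⟨lowerI_of_lowerB (lowerB_of_lowerT lowerT),
    fun p hp n T hT hTn a b L _ => upperG p hp n T hT hTn a b L⟩

end Pool.Agent.Results.MP_e016b3_lc.GenericWords
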